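import Pool.Agent.Y119.HY.Ari

/-! # OX/OSD (helper45): denominators for a product of arbitrary rational linear factors -/

set_option autoImplicit false

open PowerSeries

namespace Pool.Agent.P8H45.OX

open Pool.Agent.Y119.HY

/-- the polynomial with roots `-γ i` -/
noncomputable abbrev QP {n : ℕ} (γ : Fin n → ℚ) : Polynomial ℚ := ∏ i, (Polynomial.X + Polynomial.C (γ i))

lemma aq_QP {n : ℕ} (γ : Fin n → ℚ) (k : ℕ) : aq n (QP γ) k = ∏ i, uq (γ i) k := by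
  unfold aq uq QP
  rw [Finset.prod_comm]
  refine Finset.prod_congr rfl fun l _ => ?_
  rw [map_prod]
  have h1 : ∀ i : Fin n, Polynomial.aeval (kx l) (Polynomial.X + Polynomial.C (γ i)) =
      (C ((l : ℚ) + γ i) + X) := by
    intro i
    rw [map_add, Polynomial.aeval_X, Polynomial.aeval_C]
    have h2 : algebraMap ℚ ℚ⟦X⟧ (γ i) = C (γ i) := rfl
    rw [h2, map_add]
    unfold kx
    ring
  simp only [h1]
  have h3 : ((kx (l + 1))⁻¹) ^ n = ∏ _i : Fin n, (kx (l + 1))⁻¹ := by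
    rw [Finset.prod_const, Finset.card_univ, Fintype.card_fin]
  rw [h3, ← Finset.prod_mul_distrib]

theorem inv_kx {k : ℕ} (hk : k ≠ 0) :
    (kx k)⁻¹ = C (1 / (k : ℚ)) * (1 + C (1 / (k : ℚ)) * X)⁻¹ := by
  have hk' : (k : ℚ) ≠ 0 := by exact_mod_cast hk
  have e2 : kx k = C (k : ℚ) * (1 + C (1 / (k : ℚ)) * X) := by
    rw [mul_add, mul_one, ← mul_assoc, ← map_mul, mul_one_div_cancel hk', map_one, one_mul]
    rfl
  rw [e2, PowerSeries.mul_inv_rev, PowerSeries.C_inv, mul_comm, one_div]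

/-- the denominators -/
theorem den {n : ℕ} {γ : Fin n → ℚ} (hγ : ∀ i, ∀ l : ℕ, (l : ℚ) + γ i ≠ 0) (s : ℕ) :
    ∃ A : ℝ, ∀ K, ∃ d : ℕ, 0 < d ∧ (d : ℝ) ≤ A ^ (K + 1) ∧
      (∀ k ≤ K, ∀ i j : ℕ, j < n → ∃ a : ℤ, (d : ℚ) * hq n (QP γ) k i j = a) ∧
      ∀ k ≤ K, ∀ r j : ℕ, r ≤ s → j < n → ∃ a : ℤ, (d : ℚ) * (if k = 0 then 0 else
        PowerSeries.coeff j (((kx k)⁻¹) ^ r * aq n (QP γ) k)) = a := by
  set Bd : ℕ := 1 + ∑ i, ((γ i).den + (γ i).num.natAbs) with hBd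
  have hBi : ∀ i, (γ i).den + (γ i).num.natAbs + 1 ≤ Bd := by
    intro i
    have := Finset.single_le_sum (f := fun i => (γ i).den + (γ i).num.natAbs)
      (fun _ _ => Nat.zero_le _) (Finset.mem_univ i)
    omega
  have hBd1 : 1 ≤ Bd := by omega
  set M : ℕ := ∏ i, (γ i).den ^ 2 with hM
  have hM1 : 1 ≤ M := by
    rw [hM]
    refine Nat.succ_le_of_lt (Finset.prod_pos fun i _ => ?_)
    have := (γ i).den_pos
    positivity
  refine ⟨(M : ℝ) * ((2 ^ 8) ^ Bd) ^ (s + n), fun K => ?_⟩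
  set L : ℕ := Nat.lcmUpto (K * Bd + Bd) with hL
  have hL0 : 0 < L := Nat.lcmUpto_pos _
  have hLd : ∀ x : ℚ, x.den + x.num.natAbs + 1 ≤ Bd → ∀ i : ℕ, 1 ≤ i →
      i ≤ K * x.den + x.num.natAbs + K → i ∣ L := by
    intro x hx i h1 h2
    refine Pool.Agent.Y113.dvd_lcmUpto h1 (h2.trans ?_)
    have h3 : K * (x.den + 1) ≤ K * Bd := Nat.mul_le_mul_left _ (by omega)
    rw [mul_add, mul_one] at h3
    omega
  have hLk : ∀ k : ℕ, 1 ≤ k → k ≤ K → k ∣ L := by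
    intro k h1 h2
    refine Pool.Agent.Y113.dvd_lcmUpto h1 (h2.trans ?_)
    have h3 : K * 1 ≤ K * Bd := Nat.mul_le_mul_left _ hBd1
    omega
  -- the factors
  have haq : ∀ k ≤ K, ∃ (c : ℚ) (w : ℚ⟦X⟧), w ∈ SL L ∧ aq n (QP γ) k = C c * w ∧
      ∃ a : ℤ, ((M : ℚ) ^ k) * c = a := by
    intro k hk
    have hm1 : ∀ i, ∃ w ∈ SL L, uq (γ i) k =
        C (∏ l ∈ Finset.range k, (((l : ℚ) + γ i) / ((l : ℚ) + 1))) * w := fun i =>
      uq_eq (fun l => hγ i l) hk (hLd _ (hBi i))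
    choose w1 hw1 hw1' using hm1
    refine ⟨∏ i, ∏ l ∈ Finset.range k, (((l : ℚ) + γ i) / ((l : ℚ) + 1)), ∏ i, w1 i,
      (SL L).prod_mem fun i _ => hw1 i, ?_, ?_⟩
    · rw [aq_QP, map_prod, ← Finset.prod_mul_distrib]
      exact Finset.prod_congr rfl fun i _ => hw1' i
    · choose a ha using fun i => poch_int (γ i) k
      refine ⟨∏ i, a i, ?_⟩
      rw [hM]
      push_cast
      rw [← Finset.prod_pow, ← Finset.prod_mul_distrib]
      exact Finset.prod_congr rfl fun i _ => ha i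
  refine ⟨M ^ K * L ^ (s + n), by positivity, ?_, fun k hk i j hj => ?_, fun k hk r j hr hj => ?_⟩
  · push_cast
    have h1 : (L : ℝ) ≤ (2 ^ 8) ^ (K * Bd + Bd) := Pool.Agent.Y113.lcm_bound _
    have hM1' : (1 : ℝ) ≤ M := by exact_mod_cast hM1
    calc (M : ℝ) ^ K * (L : ℝ) ^ (s + n)
        ≤ (M : ℝ) ^ (K + 1) * ((2 ^ 8) ^ (K * Bd + Bd)) ^ (s + n) :=
          mul_le_mul (pow_le_pow_right₀ hM1' (Nat.le_succ K)) (pow_le_pow_left₀ (by positivity) h1 _)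
            (by positivity) (by positivity)
      _ = _ := by
          rw [mul_pow]
          congr 1
          generalize ((2 : ℝ) ^ 8) = B
          rw [← pow_mul, ← pow_mul, ← pow_mul]
          congr 1
          ring
  · obtain ⟨c, w, hw, hcw, a, ha⟩ := haq k hk
    have hmem : kx k ^ i * w ∈ SL L := by
      refine (SL L).mul_mem ((SL L).pow_mem ((SL L).add_mem ?_ (SL_X L)) _) hw
      have := SL_C L (k : ℤ)
      exact_mod_cast this
    obtain ⟨b, hb⟩ := SL_coeff hmem j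
    refine ⟨(M : ℤ) ^ (K - k) * a * ((L : ℤ) ^ (s + n - j) * b), ?_⟩
    unfold hq
    rw [hcw, show kx k ^ i * (C c * w) = C c * (kx k ^ i * w) by ring, PowerSeries.coeff_C_mul]
    push_cast
    rw [← ha, ← hb]
    have e1 : (M : ℚ) ^ K = (M : ℚ) ^ (K - k) * (M : ℚ) ^ k := by rw [← pow_add]; congr 1; omega
    have e2 : (L : ℚ) ^ (s + n) = (L : ℚ) ^ (s + n - j) * (L : ℚ) ^ j := by rw [← pow_add]; congr 1; omega
    rw [e1, e2]
    ring
  · by_cases hk0 : k = 0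
    · exact ⟨0, by rw [if_pos hk0]; simp⟩
    rw [if_neg hk0]
    obtain ⟨c, w, hw, hcw, a, ha⟩ := haq k hk
    obtain ⟨t, ht⟩ := hLk k (Nat.one_le_iff_ne_zero.2 hk0) hk
    have hk' : (k : ℚ) ≠ 0 := by exact_mod_cast hk0
    have htq : (L : ℚ) * (1 / (k : ℚ)) = ((t : ℤ) : ℚ) := by
      rw [ht]
      push_cast
      field_simp
    have hmem : ((1 + C (1 / (k : ℚ)) * X)⁻¹) ^ r * w ∈ SL L := by
      refine (SL L).mul_mem ((SL L).pow_mem (SL_inv (SL_lin ⟨t, htq⟩) (by simp)) _) hw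
    obtain ⟨b, hb⟩ := SL_coeff hmem j
    refine ⟨(M : ℤ) ^ (K - k) * a * (((L : ℤ) ^ (s - r) * (t : ℤ) ^ r) *
      ((L : ℤ) ^ (n - j) * b)), ?_⟩
    rw [hcw, inv_kx hk0, mul_pow, show C (1 / (k : ℚ)) ^ r * ((1 + C (1 / (k : ℚ)) * X)⁻¹) ^ r *
        (C c * w) = C ((1 / (k : ℚ)) ^ r * c) * (((1 + C (1 / (k : ℚ)) * X)⁻¹) ^ r * w) by
          rw [map_mul, map_pow]; ring,
      PowerSeries.coeff_C_mul]
    push_cast
    push_cast at htq
    rw [← ha, ← hb, ← htq]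
    have e1 : (M : ℚ) ^ K = (M : ℚ) ^ (K - k) * (M : ℚ) ^ k := by rw [← pow_add]; congr 1; omega
    have e2 : (L : ℚ) ^ n = (L : ℚ) ^ (n - j) * (L : ℚ) ^ j := by
      rw [← pow_add]; congr 1; omega
    have e3 : (L : ℚ) ^ s = (L : ℚ) ^ (s - r) * (L : ℚ) ^ r := by rw [← pow_add]; congr 1; omega
    rw [pow_add, e1, e2, e3, mul_pow]
    ring

end Pool.Agent.P8H45.OX
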