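import Pool.Agent.P8H30.OX.Stm
import Pool.Agent.P8H45.OX.OsdCore

/-! # OX/OSD (helper45) -/

set_option autoImplicit false

open PowerSeries Module Matrix

namespace Pool.Agent.P8H45.OX

open Pool.Agent.P8H30.MX Pool.Agent.P8H30.OX
open Pool.Agent.Y113 (ps SDc Cv)
open Pool.Agent.Y119.HY (Am um uc ec Jm kx aq hq Hq Hc Hf Yf E om tv Sol Lens Gal cm QD QB a0 hps)
open Pool.Agent.Y119.HZ (Hp Wp T1 A1 ix evq hf km th)

theorem qg_QP {n : ℕ} (γ : Fin n → ℚ) (hn : 2 ≤ n) : QG n (QP γ) where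
  two := hn
  monic := Polynomial.monic_prod_of_monic _ _ fun i _ => Polynomial.monic_X_add_C _
  deg := by
    rw [Polynomial.natDegree_prod_of_monic _ _ fun i _ => Polynomial.monic_X_add_C _]
    simp

theorem qg_mul {s n : ℕ} {Q : Polynomial ℚ} (hQ : QG n Q) : QG (s + n) (Polynomial.X ^ s * Q) where
  two := by have := hQ.two; omega
  monic := (Polynomial.monic_X_pow s).mul hQ.monic
  deg := by
    rw [(Polynomial.monic_X_pow s).natDegree_mul hQ.monic, Polynomial.natDegree_X_pow, hQ.deg]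

theorem hp_growth {n : ℕ} {Q : Polynomial ℚ} (h : Sol (cm (Am n)) (cm (Pool.Agent.Y119.HY.Bm n Q)) (Hc n Q))
    (i j : Fin n) : ∃ A : ℝ, ∀ k, |((coeff k (Hp n Q i j) : ℚ) : ℝ)| ≤ A ^ (k + 1) := by
  obtain ⟨A, hA⟩ := (h.growth Pool.Agent.Y119.HY.Ac_nil i j).exp
  refine ⟨A, fun k => ?_⟩
  have h1 := hA k
  unfold Hc at h1
  rw [Pool.Agent.Y119.HY.cm_apply] at h1
  have h2 : coeff k (Hp n Q i j) = Hq n Q k i j := by
    unfold Hp hps
    rw [Matrix.of_apply, PowerSeries.coeff_mk]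
    rfl
  rw [h2]
  refine le_trans (le_of_eq ?_) h1
  have e1 : ((Hq n Q k i j : ℚ) : ℂ) = (((Hq n Q k i j : ℚ) : ℝ) : ℂ) := by push_cast; rfl
  rw [e1, Complex.norm_real, Real.norm_eq_abs]

theorem osd : Pool.Agent.P8H30.MX.S_SOL → Pool.Agent.P8H30.MX.S_BLK → S_OSD := by
  intro hS hB s n γ hn hγ
  have hQ : QG n (QP γ) := qg_QP γ hn
  refine ⟨fun i j => ?_, fun i j => ?_⟩
  · refine Pool.Agent.Y119.HY.sdc_of (hp_growth (hS n _ hQ) i j) ?_
    obtain ⟨A, hA⟩ := den hγ s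
    refine ⟨A, fun K => ?_⟩
    obtain ⟨d, hd0, hd, hd', -⟩ := hA K
    refine ⟨d, hd0, hd, fun k hk => ?_⟩
    unfold Hp hps
    rw [Matrix.of_apply, PowerSeries.coeff_mk]
    exact hd' k hk i j j.2
  · refine Pool.Agent.Y119.HY.sdc_of ?_ ?_
    · have h1 : HC s n (QP γ) i j =
          Hp (s + n) (Polynomial.X ^ s * QP γ) (Fin.castAdd n i) (Fin.natAdd s j) := by
        rw [hB s n (QP γ), bl_right]
      rw [h1]
      exact hp_growth (hS (s + n) _ (qg_mul hQ)) _ _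
    · obtain ⟨A, hA⟩ := den hγ s
      refine ⟨A, fun K => ?_⟩
      obtain ⟨d, hd0, hd, -, hd'⟩ := hA K
      refine ⟨d, hd0, hd, fun k hk => ?_⟩
      unfold HC
      rw [Matrix.of_apply, PowerSeries.coeff_mk]
      exact hd' k hk (s - (i : ℕ)) j (Nat.sub_le _ _) j.2

end Pool.Agent.P8H45.OX
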